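import Pool.Agent.Run7.h925.HP.ASM
import Pool.Agent.Run7.h925.HP.COL
import Pool.Agent.Run7.h925.HP.PRF
import Pool.Agent.Run7.h925.HP.TASK
import Pool.Agent.Run7.h925.HP.FLDP
import Pool.Agent.Run7.h937.ED.KAP0
import Pool.Agent.Run7.h937.ED.Cnt
import Pool.Agent.Run7.h937.ED.End

set_option autoImplicit false

/-!
# MP_d1604f_al: a Hermite ring which is not an elementary divisor ring, with a perfection
that is one

For every prime `p` there is a countable reduced Hermite ring of characteristic `p` which is not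
an elementary divisor ring and whose perfection is an elementary divisor ring.
-/

namespace Pool.Agent.Results.MP_d1604f_al.PerfectionCounterexample

/-- The matrix `A` admits diagonal reduction: there are invertible `P`, `Q` such that `P A Q` is
diagonal with diagonal entries `d 0, d 1, ...`, each dividing the next. -/
def DiagonalReduction {R : Type} [CommRing R] {m n : ℕ} (A : Matrix (Fin m) (Fin n) R) : Prop :=
  ∃ (P : Matrix (Fin m) (Fin m) R) (Q : Matrix (Fin n) (Fin n) R) (d : ℕ → R),
    IsUnit P ∧ IsUnit Q ∧ (∀ i : ℕ, i + 1 < min m n → d i ∣ d (i + 1)) ∧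
      ∀ (i : Fin m) (j : Fin n), (P * A * Q) i j = if (i : ℕ) = (j : ℕ) then d i else 0

/-- Every one by two matrix admits diagonal reduction. -/
def HermiteRing (R : Type) [CommRing R] : Prop :=
  ∀ A : Matrix (Fin 1) (Fin 2) R, DiagonalReduction A

/-- Every matrix, of any size, admits diagonal reduction. -/
def ElementaryDivisorRing (R : Type) [CommRing R] : Prop :=
  ∀ (m n : ℕ) (A : Matrix (Fin m) (Fin n) R), DiagonalReduction A

theorem result : ∀ (p : ℕ) [Fact p.Prime], ∃ (R : Type) (_ : CommRing R) (_ : CharP R p),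
    Countable R ∧ IsReduced R ∧ HermiteRing R ∧ ¬ ElementaryDivisorRing R ∧
      ElementaryDivisorRing (PerfectClosure R p) := by
  intro p hp
  obtain ⟨H, iF, iC, iA, iN, K, hK, l, hl⟩ := Run7.h925.HP.fields p
  obtain ⟨R, iR, iP, φ, ψ, h1, h2, h3, hcount, hred, hHer, hEDR⟩ :=
    Run7.h925.HP.colim Run7.h925.HP.t_COL Run7.h925.HP.t_TASK1 Run7.h925.HP.t_TASK2
      Run7.h937.ED.t_CNT Run7.h925.HP.t_PRF Run7.h937.ED.t_KAP H p K hK
  refine ⟨R, iR, iP, hcount, hred, Run7.h937.ED.her_isHermite R hHer, ?_, hEDR⟩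
  exact Run7.h937.ED.notEDR K l hl (Run7.h925.HP.TT K) (fun _ => Iff.rfl) (Run7.h925.HP.MM K)
    (Run7.h925.HP.MM_id K) (Run7.h925.HP.MM_comp K) (fun _ h => h) R φ ψ h1 h2 h3

end Pool.Agent.Results.MP_d1604f_al.PerfectionCounterexample
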